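import Pool.Agent.H57.ML.Targets

/-!
# Multi-layer Meyniel (MP_6ecee4_co): module KER (the smoothing kernel of the lazy walk)
-/

namespace H19.ML

open scoped BigOperators
open Finset
open Classical
open H57.ML

variable {V : Type} [Fintype V]

/-- transition matrix of the lazy walk: each edge has probability `1 / D`. -/
noncomputable def PM (H : SimpleGraph V) (D : ℕ) : Matrix V V ℝ := fun x u =>
  (if x = u then 1 - ((univ.filter (fun w => H.Adj x w)).card : ℝ) / D else 0) +
    (if H.Adj x u then 1 / (D : ℝ) else 0)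

theorem PM_nonneg {H : SimpleGraph V} {D : ℕ} (hD : 1 ≤ D) (hH : DegLE H D) (x u : V) :
    0 ≤ PM H D x u := by
  have hD' : (0 : ℝ) < D := by exact_mod_cast hD
  have h1 : ((univ.filter (fun w => H.Adj x w)).card : ℝ) / D ≤ 1 := by
    rw [div_le_one hD']
    exact_mod_cast hH x
  unfold PM
  apply add_nonneg
  · split_ifs
    · linarith
    · exact le_rfl
  · split_ifs
    · positivity
    · exact le_rfl

theorem PM_sum {H : SimpleGraph V} {D : ℕ} (x : V) : ∑ u, PM H D x u = 1 := by
  unfold PM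
  rw [sum_add_distrib, sum_ite_eq, if_pos (mem_univ x), ← sum_filter, sum_const, nsmul_eq_mul]
  ring

theorem PM_adj {H : SimpleGraph V} {D : ℕ} {x u : V} (h : H.Adj x u) :
    PM H D x u = 1 / (D : ℝ) := by
  unfold PM
  rw [if_neg h.ne, if_pos h, zero_add]

theorem PM_pow_nonneg {H : SimpleGraph V} {D : ℕ} (hD : 1 ≤ D) (hH : DegLE H D) (j : ℕ) (x u : V) :
    0 ≤ (PM H D ^ j) x u := by
  induction j generalizing x u with
  | zero =>
    rw [pow_zero, Matrix.one_apply]
    split_ifs <;> norm_num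
  | succ j ih =>
    rw [pow_succ, Matrix.mul_apply]
    exact sum_nonneg fun w _ => mul_nonneg (ih x w) (PM_nonneg hD hH w u)

theorem PM_pow_sum {H : SimpleGraph V} {D : ℕ} (j : ℕ) (x : V) : ∑ u, (PM H D ^ j) x u = 1 := by
  induction j generalizing x with
  | zero => simp [Matrix.one_apply]
  | succ j ih =>
    simp_rw [pow_succ, Matrix.mul_apply]
    rw [sum_comm]
    simp_rw [← mul_sum, PM_sum, mul_one]
    exact ih x

theorem PM_pow_range {H : SimpleGraph V} {D : ℕ} (j : ℕ) (x u : V)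
    (h : (PM H D ^ j) x u ≠ 0) : Within H j x u := by
  induction j generalizing u with
  | zero =>
    rw [pow_zero, Matrix.one_apply] at h
    rw [Within.zero_iff]
    by_contra hne
    exact h (if_neg hne)
  | succ j ih =>
    rw [pow_succ, Matrix.mul_apply] at h
    obtain ⟨w, _, hw⟩ := exists_ne_zero_of_sum_ne_zero h
    have h1 := ih w (left_ne_zero_of_mul hw)
    have h2 : PM H D w u ≠ 0 := right_ne_zero_of_mul hw
    by_cases hwu : w = u
    · subst hwu; exact h1.mono (Nat.le_succ j)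
    · by_cases hadj : H.Adj w u
      · exact h1.step hadj
      · exfalso
        apply h2
        unfold PM
        rw [if_neg hwu, if_neg hadj, zero_add]

theorem PM_pow_walk {H : SimpleGraph V} {D : ℕ} (hD : 1 ≤ D) (hH : DegLE H D) {x u : V}
    (p : H.Walk x u) : (1 / (D : ℝ)) ^ p.length ≤ (PM H D ^ p.length) x u := by
  induction p with
  | nil => simp
  | @cons x v u hadj q ih =>
    rw [SimpleGraph.Walk.length_cons, pow_succ' (PM H D), Matrix.mul_apply, pow_succ']
    calc 1 / (D : ℝ) * (1 / (D : ℝ)) ^ q.length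
        ≤ PM H D x v * (PM H D ^ q.length) v u := by
          rw [PM_adj hadj]
          exact mul_le_mul_of_nonneg_left ih (by positivity)
      _ ≤ ∑ w, PM H D x w * (PM H D ^ q.length) w u :=
          single_le_sum (f := fun w => PM H D x w * (PM H D ^ q.length) w u)
            (fun w _ => mul_nonneg (PM_nonneg hD hH x w) (PM_pow_nonneg hD hH _ w u)) (mem_univ v)

theorem half_sum (J : ℕ) : ∑ j ∈ range J, (1 / 2 : ℝ) ^ (j + 1) + (1 / 2) ^ J = 1 := by
  induction J with
  | zero => simp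
  | succ J ih =>
    rw [sum_range_succ, add_assoc]
    have : (1 / 2 : ℝ) ^ (J + 1) + (1 / 2) ^ (J + 1) = (1 / 2) ^ J := by
      rw [pow_succ]; ring
    rw [this, ih]

/-- the kernel without its tail. -/
noncomputable def Q0 (H : SimpleGraph V) (D J : ℕ) (x u : V) : ℝ :=
  ∑ j ∈ range J, (1 / 2 : ℝ) ^ (j + 1) * (PM H D ^ j) x u

/-- the tail. -/
noncomputable def Tl (H : SimpleGraph V) (D J : ℕ) (x u : V) : ℝ :=
  (1 / 2 : ℝ) ^ J * (PM H D ^ J) x u

theorem ker : KerStmt := by
  intro D J hD V _ H hH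
  have hD' : (0 : ℝ) < D := by exact_mod_cast hD
  have hD1 : (1 : ℝ) ≤ D := by exact_mod_cast hD
  have hP := PM_pow_nonneg (V := V) hD hH
  refine ⟨fun x u => Q0 H D J x u + Tl H D J x u, Tl H D J, ?_⟩
  have hT : ∀ x u, 0 ≤ Tl H D J x u := fun x u => mul_nonneg (by positivity) (hP J x u)
  have hQ0 : ∀ x u, 0 ≤ Q0 H D J x u := fun x u =>
    sum_nonneg fun j _ => mul_nonneg (by positivity) (hP j x u)
  have hTs : ∀ x, ∑ u, Tl H D J x u = (1 / 2) ^ J := by
    intro x
    unfold Tl
    rw [← mul_sum, PM_pow_sum, mul_one]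
  refine ⟨fun x u => add_nonneg (hQ0 x u) (hT x u), hT, ?_, fun x => (hTs x).le, ?_, ?_, ?_⟩
  · -- sum_one
    intro x
    rw [sum_add_distrib, hTs]
    have : ∑ u, Q0 H D J x u = ∑ j ∈ range J, (1 / 2 : ℝ) ^ (j + 1) := by
      unfold Q0
      rw [sum_comm]
      refine sum_congr rfl fun j _ => ?_
      rw [← mul_sum, PM_pow_sum, mul_one]
    rw [this, half_sum]
  · -- range
    intro x u h
    by_cases hTz : Tl H D J x u = 0
    · simp only [hTz, add_zero] at h
      obtain ⟨j, hj, hne⟩ := exists_ne_zero_of_sum_ne_zero h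
      exact (PM_pow_range j x u (right_ne_zero_of_mul hne)).mono (mem_range.mp hj).le
    · exact PM_pow_range J x u (right_ne_zero_of_mul hTz)
  · -- quasi
    intro x u u' hadj
    show 1 / (2 * (D : ℝ)) * (Q0 H D J x u + Tl H D J x u - Tl H D J x u) ≤
      Q0 H D J x u' + Tl H D J x u'
    rw [add_sub_cancel_right]
    have h1 : ∑ j ∈ range (J + 1), (1 / 2 : ℝ) ^ (j + 1) * (PM H D ^ j) x u' ≤
        Q0 H D J x u' + Tl H D J x u' := by
      rw [sum_range_succ]
      refine add_le_add le_rfl ?_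
      exact mul_le_mul_of_nonneg_right
        (pow_le_pow_of_le_one (by norm_num) (by norm_num) (Nat.le_succ J)) (hP J x u')
    refine le_trans ?_ h1
    rw [sum_range_succ']
    refine le_trans ?_ (le_add_of_nonneg_right (mul_nonneg (by positivity) (hP 0 x u')))
    unfold Q0
    rw [mul_sum]
    refine sum_le_sum fun j _ => ?_
    have h2 : (PM H D ^ j) x u * (1 / (D : ℝ)) ≤ (PM H D ^ (j + 1)) x u' := by
      rw [pow_succ, Matrix.mul_apply, ← PM_adj (D := D) hadj]
      exact single_le_sum (f := fun w => (PM H D ^ j) x w * PM H D w u')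
        (fun w _ => mul_nonneg (hP j x w) (PM_nonneg hD hH w u')) (mem_univ u)
    calc 1 / (2 * (D : ℝ)) * ((1 / 2 : ℝ) ^ (j + 1) * (PM H D ^ j) x u)
        = (1 / 2 : ℝ) ^ (j + 1 + 1) * ((PM H D ^ j) x u * (1 / (D : ℝ))) := by
          rw [pow_succ _ (j + 1)]
          field_simp
      _ ≤ (1 / 2 : ℝ) ^ (j + 1 + 1) * (PM H D ^ (j + 1)) x u' :=
          mul_le_mul_of_nonneg_left h2 (by positivity)
  · -- lower
    intro x u i hi hw
    obtain ⟨p, hp⟩ := hw
    have h1 := PM_pow_walk hD hH p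
    have h2 : (1 / 2 : ℝ) ^ (p.length + 1) * (PM H D ^ p.length) x u ≤ Q0 H D J x u :=
      single_le_sum (f := fun j => (1 / 2 : ℝ) ^ (j + 1) * (PM H D ^ j) x u)
        (fun j _ => mul_nonneg (by positivity) (hP j x u)) (mem_range.mpr (by omega))
    have h3 : (1 / 2 : ℝ) ^ (p.length + 1) * (1 / (D : ℝ)) ^ p.length =
        1 / (2 * (2 * (D : ℝ)) ^ p.length) := by
      rw [pow_succ, div_pow, div_pow, mul_pow, one_pow]
      field_simp
    have h4 : 1 / (2 * (2 * (D : ℝ)) ^ i) ≤ 1 / (2 * (2 * (D : ℝ)) ^ p.length) := by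
      apply one_div_le_one_div_of_le (by positivity)
      exact mul_le_mul_of_nonneg_left (pow_le_pow_right₀ (by linarith) hp) (by norm_num)
    have h5 : (1 / 2 : ℝ) ^ (p.length + 1) * (1 / (D : ℝ)) ^ p.length ≤
        (1 / 2 : ℝ) ^ (p.length + 1) * (PM H D ^ p.length) x u :=
      mul_le_mul_of_nonneg_left h1 (by positivity)
    show _ ≤ Q0 H D J x u + Tl H D J x u
    linarith [hT x u]

end H19.ML
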