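import Pool.Agent.H57.ML.Targets

/-!
# Multi-layer Meyniel (MP_6ecee4_co): module MM (minimax)
-/

namespace H19.ML

open scoped BigOperators Pointwise
open Finset
open H57.ML

theorem mm : MMStmt := by
  intro E _ _ _ _ _ K hKc hK hne ι _ A hconv hcont C hμ
  classical
  -- the image of `K`
  let F : E → (ι → ℝ) := fun ξ i => A i ξ
  have hF : ContinuousOn F K := continuousOn_pi.mpr hcont
  let P : Set (ι → ℝ) := {y | ∀ i, 0 ≤ y i}
  have hP : IsClosed P := by
    have : P = ⋂ i, {y : ι → ℝ | 0 ≤ y i} := by ext y; simp [P]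
    rw [this]
    exact isClosed_iInter fun i => isClosed_le continuous_const (continuous_apply i)
  let S : Set (ι → ℝ) := F '' K + P
  have hSc : IsClosed S := IsClosed.add_left_of_isCompact hP (hK.image_of_continuousOn hF)
  have hmem : ∀ y : ι → ℝ, y ∈ S ↔ ∃ ξ ∈ K, ∀ i, A i ξ ≤ y i := by
    intro y
    constructor
    · rintro ⟨_, ⟨ξ, hξ, rfl⟩, p, hp, rfl⟩
      exact ⟨ξ, hξ, fun i => by
        have := hp i
        simp only [Pi.add_apply, F]
        linarith⟩
    · rintro ⟨ξ, hξ, h⟩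
      refine ⟨F ξ, ⟨ξ, hξ, rfl⟩, y - F ξ, fun i => ?_, by simp⟩
      simp only [Pi.sub_apply, F]
      linarith [h i]
  have hSconv : Convex ℝ S := by
    intro y hy z hz a b ha hb hab
    rw [hmem] at hy hz ⊢
    obtain ⟨ξ, hξ, h1⟩ := hy
    obtain ⟨ζ, hζ, h2⟩ := hz
    refine ⟨a • ξ + b • ζ, hKc hξ hζ ha hb hab, fun i => ?_⟩
    refine ((hconv i).2 hξ hζ ha hb hab).trans ?_
    simp only [smul_eq_mul, Pi.add_apply, Pi.smul_apply]
    exact add_le_add (mul_le_mul_of_nonneg_left (h1 i) ha) (mul_le_mul_of_nonneg_left (h2 i) hb)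
  by_contra hcon
  have hx : (fun _ => C : ι → ℝ) ∉ S := by
    rw [hmem]; exact hcon
  obtain ⟨f, u, hfu, hfS⟩ := geometric_hahn_banach_point_closed hSconv hSc hx
  -- coefficients of `f`
  let c : ι → ℝ := fun i => f (Pi.single i 1)
  have hf : ∀ y : ι → ℝ, f y = ∑ i, c i * y i := by
    intro y
    have hy : y = ∑ i, y i • (Pi.single i (1 : ℝ) : ι → ℝ) := by
      ext j
      simp [Finset.sum_apply, Pi.single_apply]
    conv_lhs => rw [hy]
    rw [map_sum]
    refine Finset.sum_congr rfl fun i _ => ?_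
    rw [map_smul, smul_eq_mul, mul_comm]
  obtain ⟨ξ0, hξ0⟩ := hne
  have hc : ∀ i, 0 ≤ c i := by
    intro i
    by_contra hneg
    push Not at hneg
    -- go far in direction `i`
    have hy : ∀ t : ℝ, 0 ≤ t → u < f (F ξ0) + t * c i := by
      intro t ht
      have hm : F ξ0 + t • (Pi.single i (1 : ℝ) : ι → ℝ) ∈ S := by
        rw [hmem]
        refine ⟨ξ0, hξ0, fun j => ?_⟩
        simp only [Pi.add_apply, Pi.smul_apply, smul_eq_mul, F]
        have : 0 ≤ t * (Pi.single i (1 : ℝ) : ι → ℝ) j := by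
          apply mul_nonneg ht
          by_cases hj : j = i
          · subst hj; simp
          · simp [hj]
        linarith
      have := hfS _ hm
      rwa [map_add, map_smul, smul_eq_mul] at this
    have h0 := hy 0 le_rfl
    rw [zero_mul, add_zero] at h0
    have ht : 0 ≤ (u - f (F ξ0)) / c i :=
      div_nonneg_of_nonpos (by linarith) hneg.le
    have := hy _ ht
    rw [div_mul_cancel₀ _ hneg.ne] at this
    linarith
  have hsum : 0 < ∑ i, c i := by
    rcases (Finset.sum_nonneg (fun i _ => hc i) : 0 ≤ ∑ i, c i).lt_or_eq with h | h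
    · exact h
    · exfalso
      have hz : ∀ i, c i = 0 := by
        intro i
        have := (Finset.sum_eq_zero_iff_of_nonneg (fun i _ => hc i)).mp h.symm
        exact this i (Finset.mem_univ i)
      have hm : F ξ0 ∈ S := (hmem _).mpr ⟨ξ0, hξ0, fun i => le_rfl⟩
      have h1 := hfS _ hm
      rw [hf] at h1 hfu
      simp only [hz, zero_mul, Finset.sum_const_zero] at h1 hfu
      linarith
  obtain ⟨ξ, hξ, hle⟩ := hμ (fun i => c i / ∑ j, c j) (fun i => div_nonneg (hc i) hsum.le)
    (by rw [← Finset.sum_div, div_self hsum.ne'])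
  have hm : F ξ ∈ S := (hmem _).mpr ⟨ξ, hξ, fun i => le_rfl⟩
  have h1 := hfS _ hm
  rw [hf] at h1 hfu
  have h2 : ∑ i, c i * F ξ i = (∑ j, c j) * ∑ i, c i / (∑ j, c j) * A i ξ := by
    rw [Finset.mul_sum]
    refine Finset.sum_congr rfl fun i _ => ?_
    field_simp
    rfl
  have h3 : ∑ i, c i * C = (∑ j, c j) * C := by rw [Finset.sum_mul]
  rw [h2] at h1
  rw [h3] at hfu
  have := mul_le_mul_of_nonneg_left hle hsum.le
  linarith

end H19.ML
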